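import Pool.Agent.Y717.BK
import Pool.Agent.TH242.MK.OutReg

/-!
# Affine involutions on the tangent lines: the radii of curvature are independent

The case of MP_ae5b4e_an in which all `σ_p` are the point reflections in `p` (outer billiards) and
the leaves are the level sets of a real analytic function near `γ`, for curves which have a
parametrisation with entire speed and entire angular velocity: for example all curves whose radius of
curvature is an entire function of the normal angle, or whose curvature is an entire function of the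
arclength.

Let `P_1, …, P_n` be the radii of curvature of such curves, as functions of the parameters.  Then
products `P^α = P_1^{α_1} ⋯ P_n^{α_n}`, with real exponents, no two of which are proportional, are
linearly independent over the ring of the entire functions of order less than one in `e^{it}`, which
contains the trigonometric polynomials.  In particular:
* (`n = 1`) if `P_1` satisfies a nontrivial algebraic equation over this ring, then the curve is a
  circle;
* the constant 1 and the `P_j` are linearly independent over this ring if no two of the `P_j` are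
  proportional and none is constant;
* the `P_j` are algebraically independent over this ring if there is no relation `P^m = c` with
  integers `m_j`, not all zero.
-/

set_option autoImplicit false

open Complex Set Metric

namespace Pool.Agent.Results.MP_ae5b4e_an.OuterIndependentCurvatures

/-- `γ` is a closed plane curve with positive continuous radius of curvature `ρ`, parametrised by
its normal angle: `γ'(s) = ρ(s) i e^{is}`; the outer unit normal at `γ s` is `e^{is}`. -/
def IsOval (γ : ℝ → ℂ) (ρ : ℝ → ℝ) : Prop :=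
  (∀ s, γ (s + 2 * Real.pi) = γ s) ∧ Continuous ρ ∧ (∀ s, 0 < ρ s) ∧
    ∀ s : ℝ, HasDerivAt γ ((ρ s : ℂ) * I * cexp (s * I)) s

/-- the point at signed distance `δ` from `γ s` on the tangent line at `γ s` -/
noncomputable def tangentPoint (γ : ℝ → ℂ) (s δ : ℝ) : ℂ := γ s + δ * (I * cexp (s * I))

/-- `K(x, y)` is a nonconstant real analytic first integral of the outer billiard about `γ` near
`γ`: it is analytic and nonconstant on a connected neighbourhood `U` of `γ`, and for every `s` it
has the same value at the two points at distance `δ` from `γ s` on the tangent line at `γ s`, which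
the reflection in `γ s` exchanges, for all small `δ > 0`. -/
def IsIntegralNear (γ : ℝ → ℂ) (K : ℝ → ℝ → ℝ) (U : Set (ℝ × ℝ)) : Prop :=
  IsOpen U ∧ IsPreconnected U ∧ (∀ s, ((γ s).re, (γ s).im) ∈ U) ∧
    AnalyticOnNhd ℝ (Function.uncurry K) U ∧
    (∀ s : ℝ, ∃ ε > 0, ∀ δ : ℝ, 0 < δ → δ < ε →
      K (tangentPoint γ s δ).re (tangentPoint γ s δ).im
        = K (tangentPoint γ s (-δ)).re (tangentPoint γ s (-δ)).im) ∧
    ∃ z ∈ U, ∃ w ∈ U, K z.1 z.2 ≠ K w.1 w.2

/-- The outer billiard about `γ` has a nonconstant real analytic first integral near `γ`. -/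
def IsIntegrable (γ : ℝ → ℂ) : Prop := ∃ (K : ℝ → ℝ → ℝ) (U : Set (ℝ × ℝ)), IsIntegralNear γ K U

lemma tangentPoint_re (γ : ℝ → ℂ) (s δ : ℝ) :
    (tangentPoint γ s δ).re = (γ s).re - δ * Real.sin s := by
  simp [tangentPoint, Complex.exp_ofReal_mul_I_re, Complex.exp_ofReal_mul_I_im]
  ring

lemma tangentPoint_im (γ : ℝ → ℂ) (s δ : ℝ) :
    (tangentPoint γ s δ).im = (γ s).im + δ * Real.cos s := by
  simp [tangentPoint, Complex.exp_ofReal_mul_I_re, Complex.exp_ofReal_mul_I_im]

lemma oInt {γ : ℝ → ℂ} {K : ℝ → ℝ → ℝ} {U : Set (ℝ × ℝ)} (h : IsIntegralNear γ K U) :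
    H719FX.OInt γ K U := by
  obtain ⟨h1, h2, h3, h4, h5, z, hz, w, hw, hne⟩ := h
  refine ⟨h1, h2, h3, h4, fun s => ?_, ?_⟩
  · obtain ⟨ε, hε, h⟩ := h5 s
    refine ⟨ε, hε, fun δ hδ hδ' => ?_⟩
    have := h δ hδ hδ'
    simpa [tangentPoint_re, tangentPoint_im, sub_eq_add_neg] using this
  · rintro ⟨c, hc⟩
    exact hne ((hc z hz).trans (hc w hw).symm)

/-- `s = θ(t)` is a change of parameter for which the speed `v(t) = ρ(θ(t)) θ'(t)` of `γ(θ(t))` and
the angular velocity `w(t) = θ'(t)` of its normal extend to entire functions with period `2π`. -/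
def HasEntireVelocities (ρ θ : ℝ → ℝ) : Prop :=
  Function.Surjective θ ∧ ∃ v w : ℂ → ℂ, Differentiable ℂ v ∧ Differentiable ℂ w ∧
    (∀ z, v (z + 2 * Real.pi) = v z) ∧ (∀ z, w (z + 2 * Real.pi) = w z) ∧
    ∀ t : ℝ, HasDerivAt (fun t : ℝ => (θ t : ℂ)) (w t) t ∧ v t = ρ (θ t) * w t

/-- `s` is an entire function of order less than one in `e^{it}`:
`|s(z)| ≤ exp (A e^{σ|z|})` for some `σ < 1`. -/
def OrderLessThanOne (s : ℂ → ℂ) : Prop :=
  Differentiable ℂ s ∧ ∃ A σ : ℝ, 0 ≤ σ ∧ σ < 1 ∧ ∀ z : ℂ, ‖s z‖ ≤ Real.exp (A * Real.exp (σ * ‖z‖))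

/-- The product of the powers `ρ_j(θ_j(t))^{α_j}` of the radii of curvature. -/
noncomputable def power {n : ℕ} (ρ θ : Fin n → ℝ → ℝ) (α : Fin n → ℝ) (t : ℝ) : ℝ :=
  ∏ j, ρ j (θ j t) ^ α j

/-- Let `γ_1, …, γ_n` be ovals, with changes of parameter `θ_j` for which the speed and the angular
velocity are entire, such that the outer billiards about all `γ_j` have nonconstant real analytic
first integrals near `γ_j`.  Then products of real powers of the radii of curvature
`ρ_j(θ_j(t))`, no two of which are proportional, are linearly independent over the entire functions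
of order less than one in `e^{it}`. -/
theorem result {n : ℕ} (γ : Fin n → ℝ → ℂ) (ρ θ : Fin n → ℝ → ℝ) (h : ∀ j, IsOval (γ j) (ρ j))
    (hI : ∀ j, IsIntegrable (γ j)) (hθ : ∀ j, HasEntireVelocities (ρ j) (θ j))
    (S : Finset (Fin n → ℝ))
    (hS : ∀ α ∈ S, ∀ β ∈ S, α ≠ β → ¬ ∃ c : ℝ, ∀ t, power ρ θ α t = c * power ρ θ β t)
    (a : (Fin n → ℝ) → ℂ → ℂ) (ha : ∀ α ∈ S, OrderLessThanOne (a α))
    (hsum : ∀ t : ℝ, ∑ α ∈ S, a α t * power ρ θ α t = 0) : ∀ α ∈ S, ∀ z, a α z = 0 := by
  classical
  -- zero-free extensions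
  have hext : ∀ j, ∃ P : ℂ → ℂ, TH242.MK.Ext (fun t => ρ j (θ j t)) P := by
    intro j
    obtain ⟨h1, h2, h3, h4⟩ := h j
    obtain ⟨K, U, hK⟩ := hI j
    obtain ⟨hs, v, w, hv, hw, hpv, hpw, hd⟩ := hθ j
    have hOv : H738CZ.IsOval (γ j) (ρ j) := ⟨h1, h2, h3, h4⟩
    have hD : TH242.MK.Dat (γ j) (ρ j) (θ j) v w :=
      ⟨hv, hw, hpv, hpw, hs, fun t => (hd t).1, fun t => (hd t).2⟩
    exact TH242.MK.outer_ext hOv (oInt hK) hD
  choose P hP using hext
  -- a common order
  have hex : ∀ α : Fin n → ℝ, ∃ σ : ℝ, 0 ≤ σ ∧ σ < 1 ∧ (α ∈ S → ∃ A : ℝ, 0 ≤ A ∧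
      ∀ z : ℂ, ‖a α z‖ ≤ Real.exp (A * Real.exp (σ * ‖z‖))) := by
    intro α
    by_cases hα : α ∈ S
    · obtain ⟨-, A, σ, h1, h2, h3⟩ := ha α hα
      refine ⟨σ, h1, h2, fun _ => ⟨max A 0, le_max_right _ _, fun z => (h3 z).trans ?_⟩⟩
      have := le_max_left A 0
      gcongr
    · exact ⟨0, le_rfl, zero_lt_one, fun h => absurd h hα⟩
  choose σ hσ0 hσ1 hσ using hex
  obtain ⟨s, hs0, hs1, hs⟩ : ∃ s : ℝ, 0 ≤ s ∧ s < 1 ∧ ∀ α ∈ S, σ α ≤ s := by
    have hgen : ∀ T : Finset (Fin n → ℝ), ∃ s : ℝ, 0 ≤ s ∧ s < 1 ∧ ∀ α ∈ T, σ α ≤ s := by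
      intro T
      induction T using Finset.induction_on with
      | empty => exact ⟨0, le_rfl, zero_lt_one, fun α hα => absurd hα (Finset.notMem_empty _)⟩
      | insert β T _ ih =>
        obtain ⟨s, h1, h2, h3⟩ := ih
        refine ⟨max s (σ β), le_max_of_le_left h1, max_lt h2 (hσ1 β), fun α hα => ?_⟩
        rcases Finset.mem_insert.1 hα with rfl | hα
        · exact le_max_right _ _
        · exact (h3 α hα).trans (le_max_left _ _)
    exact hgen S
  refine Pool.Agent.Y717.BK.lin_mon hP S hS hs0 hs1 (a := a) (fun α hα => ?_) hsum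
  obtain ⟨A, hA, hb⟩ := hσ α hα
  refine ⟨(ha α hα).1, A, hA, fun z => (hb z).trans ?_⟩
  have := hs α hα
  gcongr

end Pool.Agent.Results.MP_ae5b4e_an.OuterIndependentCurvatures
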